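import Pool.Agent.Y150.KN.Stm
import Pool.Agent.Helper819.Gr.Smith
import Pool.Agent.TH197.SymAP.Gordan

/-!
# The Hilbert–Mumford criterion for null families
-/

set_option autoImplicit false

namespace Pool.Agent.Y180.KN

open Matrix Finset
open Pool.Agent.Y150.KN

universe u v

section Weights

/-- Finitely many strict inequalities between sums of elements of an ordered group are also
satisfied by integers. -/
theorem weights {G : Type} [AddCommGroup G] [LinearOrder G] [IsOrderedAddMonoid G] {n r : ℕ}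
    (x : Fin n → G) (S : Finset ((Fin r → Fin n) × (Fin r → Fin n)))
    (hS : ∀ p ∈ S, ∑ s, x (p.1 s) < ∑ s, x (p.2 s)) :
    ∃ w : Fin n → ℤ, ∀ p ∈ S, ∑ s, w (p.1 s) < ∑ s, w (p.2 s) := by
  classical
  rcases Pool.Agent.TH197.SymAP.gordan (k := ℚ) S (Fin n → ℚ)
    (fun p => ∑ s, (Pi.single (p.2 s) 1 - Pi.single (p.1 s) 1)) with ⟨φ, hφ⟩ | ⟨l, hl, ⟨p0, hp0, hlp0⟩, h0⟩
  · -- weights from a linear form
    have key : ∃ (D : ℕ) (w : Fin n → ℤ), 0 < D ∧ ∀ i, (w i : ℚ) = D * φ (Pi.single i 1) := by
      refine ⟨∏ i, (φ (Pi.single i 1)).den,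
        fun i => (∏ i', (φ (Pi.single i' 1)).den) / (φ (Pi.single i 1)).den * (φ (Pi.single i 1)).num,
        Finset.prod_pos fun j _ => Rat.den_pos _, ?_⟩
      intro i
      have hd : (φ (Pi.single i 1)).den ∣ ∏ i', (φ (Pi.single i' 1)).den :=
        Finset.dvd_prod_of_mem (fun i' => (φ (Pi.single i' 1)).den) (mem_univ i)
      obtain ⟨t, ht⟩ := hd
      have h2 : φ (Pi.single i 1) * (φ (Pi.single i 1)).den = (φ (Pi.single i 1)).num :=
        Rat.mul_den_eq_num _
      have h3 : ((∏ i', ((φ (Pi.single i' 1)).den : ℤ)) / ((φ (Pi.single i 1)).den : ℤ) : ℤ) = t := by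
        have : (∏ i', ((φ (Pi.single i' 1)).den : ℤ)) = (φ (Pi.single i 1)).den * (t : ℤ) := by
          exact_mod_cast ht
        rw [this]
        exact Int.mul_ediv_cancel_left _ (by exact_mod_cast (Rat.den_ne_zero _))
      push_cast
      rw [h3]
      have h4 : (∏ i', ((φ (Pi.single i' 1)).den : ℚ)) = (φ (Pi.single i 1)).den * (t : ℚ) := by
        exact_mod_cast ht
      rw [h4, ← h2]
      push_cast
      ring
    obtain ⟨D, w, hD, hw⟩ := key
    refine ⟨w, fun p hp => ?_⟩
    have h1 := hφ p hp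
    simp only [map_sum, map_sub, Finset.sum_sub_distrib] at h1
    have h2 : (0 : ℚ) < D * (∑ s, φ (Pi.single (p.2 s) 1) - ∑ s, φ (Pi.single (p.1 s) 1)) :=
      mul_pos (by exact_mod_cast hD) h1
    rw [mul_sub, Finset.mul_sum, Finset.mul_sum] at h2
    simp only [← hw] at h2
    have h3 : (∑ s, (w (p.1 s) : ℚ)) < ∑ s, (w (p.2 s) : ℚ) := by linarith
    exact_mod_cast h3
  · exfalso
    -- clear denominators
    obtain ⟨D, hD, hD'⟩ := Pool.Agent.TH197.SymAP.clear (ι := S) (fun p => l p) (fun p => hl p p.2)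
    obtain ⟨m, hm⟩ := hD' D dvd_rfl
    have h1 : ∀ i : Fin n, ∑ p : S, (m p : ℤ) *
        ∑ s, ((Pi.single (p.1.2 s) 1 : Fin n → ℤ) i - (Pi.single (p.1.1 s) 1 : Fin n → ℤ) i) = 0 := by
      intro i
      have h2 := congrFun h0 i
      rw [← Finset.sum_coe_sort S] at h2
      simp only [Finset.sum_apply, Pi.smul_apply, Pi.sub_apply, smul_eq_mul, Pi.zero_apply] at h2
      have h3 : (∑ p : S, (m p : ℚ) *
        ∑ s, ((Pi.single (p.1.2 s) 1 : Fin n → ℚ) i - (Pi.single (p.1.1 s) 1 : Fin n → ℚ) i)) = 0 := by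
        simp only [hm]
        have : ∀ p : S, (D : ℚ) * l p * ∑ s, ((Pi.single (p.1.2 s) 1 : Fin n → ℚ) i -
          (Pi.single (p.1.1 s) 1 : Fin n → ℚ) i) = D * (l p * ∑ s, ((Pi.single (p.1.2 s) 1 : Fin n → ℚ) i -
          (Pi.single (p.1.1 s) 1 : Fin n → ℚ) i)) := fun p => by ring
        simp only [this, ← Finset.mul_sum, h2, mul_zero]
      have h4 : ∀ a b : Fin n, (Pi.single a 1 : Fin n → ℚ) b = ((Pi.single a 1 : Fin n → ℤ) b : ℚ) := by
        intro a b
        simp only [Pi.single_apply]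
        split_ifs <;> simp
      simp only [h4] at h3
      exact_mod_cast h3
    -- transport to the ordered group
    have h2 : ∑ p : S, (m p : ℤ) • (∑ s, x (p.1.2 s) - ∑ s, x (p.1.1 s)) = 0 := by
      have h3 : ∀ p : S, (∑ s, x (p.1.2 s) - ∑ s, x (p.1.1 s)) =
          ∑ i, (∑ s, ((Pi.single (p.1.2 s) 1 : Fin n → ℤ) i - (Pi.single (p.1.1 s) 1 : Fin n → ℤ) i)) • x i := by
        intro p
        have h5 : ∀ c : Fin n, x c = ∑ i, (Pi.single c 1 : Fin n → ℤ) i • x i := by
          intro c
          rw [Finset.sum_eq_single c]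
          · simp
          · intro b _ hb
            rw [Pi.single_eq_of_ne hb, zero_smul]
          · intro h
            exact absurd (mem_univ _) h
        simp only [Finset.sum_smul, sub_smul, Finset.sum_sub_distrib]
        rw [Finset.sum_comm, ← Finset.sum_sub_distrib]
        rw [Finset.sum_comm (f := fun i s => (Pi.single (p.1.1 s) 1 : Fin n → ℤ) i • x i)]
        rw [← Finset.sum_sub_distrib]
        refine Finset.sum_congr rfl fun s _ => ?_
        rw [← h5, ← h5]
      simp only [h3, Finset.smul_sum, smul_smul]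
      rw [Finset.sum_comm]
      simp only [← Finset.sum_smul, h1, zero_smul, Finset.sum_const_zero]
    have h3 : ∀ p : S, 0 ≤ (m p : ℤ) • (∑ s, x (p.1.2 s) - ∑ s, x (p.1.1 s)) := by
      intro p
      exact zsmul_nonneg (sub_nonneg.2 (hS p p.2).le) (by positivity)
    have h4 := (Finset.sum_eq_zero_iff_of_nonneg (fun p _ => h3 p)).1 h2 ⟨p0, hp0⟩ (mem_univ _)
    have h5 : 0 < m ⟨p0, hp0⟩ := by
      rcases Nat.eq_zero_or_pos (m ⟨p0, hp0⟩) with h | h
      · exfalso
        have := hm ⟨p0, hp0⟩
        rw [h] at this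
        simp only [CharP.cast_eq_zero, zero_eq_mul, Nat.cast_eq_zero] at this
        rcases this with h' | h'
        · omega
        · exact hlp0 h'
      · exact h
    have h6 : 0 < (m ⟨p0, hp0⟩ : ℤ) • (∑ s, x (p0.2 s) - ∑ s, x (p0.1 s)) :=
      zsmul_pos (sub_pos.2 (hS p0 hp0)) (by exact_mod_cast h5)
    exact h6.ne' h4

end Weights


section NS

/-- A finitely generated nontrivial algebra over an algebraically closed field has a point. -/
theorem exists_point (L : Type v) [Field L] [IsAlgClosed L] (B : Type u) [CommRing B]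
    [Nontrivial B] [Algebra L B] [Algebra.FiniteType L B] : Nonempty (B →ₐ[L] L) := by
  obtain ⟨m, hm⟩ := Ideal.exists_maximal B
  let _ : Field (B ⧸ m) := Ideal.Quotient.field m
  have : Algebra.FiniteType L (B ⧸ m) :=
    Algebra.FiniteType.of_surjective (Ideal.Quotient.mkₐ L m) (Ideal.Quotient.mkₐ_surjective L m)
  have : Module.Finite L (B ⧸ m) := finite_of_finite_type_of_isJacobsonRing L (B ⧸ m)
  have : Algebra.IsAlgebraic L (B ⧸ m) := inferInstance
  exact ⟨(IsAlgClosed.lift (R := L) (S := B ⧸ m) (M := L)).comp (Ideal.Quotient.mkₐ L m)⟩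

/-- Transfer of matrices from an extension `κ` of `L` to `L`. -/
theorem transfer (L : Type v) [Field L] [IsAlgClosed L] (κ : Type u) [CommRing κ] [Nontrivial κ]
    [Algebra L κ] (n : ℕ) (V V' : Matrix (Fin n) (Fin n) κ) :
    ∃ (B : Subalgebra L κ) (W W' : Matrix (Fin n) (Fin n) B) (_ : B →ₐ[L] L),
      V = W.map B.val ∧ V' = W'.map B.val := by
  let s : Set κ := Set.range (fun p : Fin n × Fin n => V p.1 p.2) ∪
    Set.range (fun p : Fin n × Fin n => V' p.1 p.2)
  have hs : s.Finite := (Set.finite_range _).union (Set.finite_range _)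
  have : Algebra.FiniteType L (Algebra.adjoin L s) :=
    Subalgebra.fg_iff_finiteType _ |>.1 ⟨hs.toFinset, by simp⟩
  obtain ⟨φ⟩ := exists_point L (Algebra.adjoin L s)
  refine ⟨Algebra.adjoin L s,
    Matrix.of fun i j => ⟨V i j, Algebra.subset_adjoin (Or.inl ⟨(i, j), rfl⟩)⟩,
    Matrix.of fun i j => ⟨V' i j, Algebra.subset_adjoin (Or.inr ⟨(i, j), rfl⟩)⟩, φ, ?_, ?_⟩
  · ext i j; rfl
  · ext i j; rfl

end NS


section Gen

/-- The ring of functions on the general linear group. -/
theorem exists_gen (n : ℕ) : ∃ (R : Type) (_ : CommRing R) (_ : IsDomain R) (_ : Algebra ℂ R)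
    (X X' : Matrix (Fin n) (Fin n) R), X * X' = 1 ∧ X' * X = 1 ∧
      ∀ u u' : Matrix (Fin n) (Fin n) ℂ, u * u' = 1 →
        ∃ ev : R →ₐ[ℂ] ℂ, X.map ev = u ∧ X'.map ev = u' := by
  set D : MvPolynomial (Fin n × Fin n) ℂ := (Matrix.mvPolynomialX (Fin n) (Fin n) ℂ).det with hD
  have hD0 : D ≠ 0 := Matrix.det_mvPolynomialX_ne_zero (Fin n) ℂ
  have hdom : IsDomain (Localization.Away D) :=
    IsLocalization.isDomain_localization (powers_le_nonZeroDivisors_of_noZeroDivisors hD0)
  set X : Matrix (Fin n) (Fin n) (Localization.Away D) :=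
    (Matrix.mvPolynomialX (Fin n) (Fin n) ℂ).map
      (algebraMap (MvPolynomial (Fin n × Fin n) ℂ) (Localization.Away D)) with hX
  have hdet : IsUnit X.det := by
    have : X.det = algebraMap _ (Localization.Away D) D := by
      rw [hX, hD, RingHom.map_det]
      rfl
    rw [this]
    exact IsLocalization.Away.algebraMap_isUnit D
  refine ⟨Localization.Away D, inferInstance, hdom, inferInstance, X, X⁻¹,
    Matrix.mul_nonsing_inv _ hdet, Matrix.nonsing_inv_mul _ hdet, ?_⟩
  intro u u' huu
  have hu : IsUnit (MvPolynomial.eval (fun p : Fin n × Fin n => u p.1 p.2) D) := by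
    have h1 : MvPolynomial.eval (fun p : Fin n × Fin n => u p.1 p.2) D = u.det := by
      rw [hD, RingHom.map_det]
      congr 1
      ext i j
      simp [Matrix.mvPolynomialX]
    rw [h1]
    exact IsUnit.of_mul_eq_one (u'.det) (by rw [← Matrix.det_mul, huu, Matrix.det_one])
  let ev0 : Localization.Away D →+* ℂ := IsLocalization.Away.lift D hu
  have hev0 : ∀ p, ev0 (algebraMap _ _ p) = MvPolynomial.eval (fun p : Fin n × Fin n => u p.1 p.2) p :=
    fun p => IsLocalization.Away.lift_eq D hu p
  let ev : Localization.Away D →ₐ[ℂ] ℂ :=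
    { ev0 with
      commutes' := by
        intro c
        have h1 : algebraMap ℂ (Localization.Away D) c =
            algebraMap (MvPolynomial (Fin n × Fin n) ℂ) _ (MvPolynomial.C c) :=
          IsScalarTower.algebraMap_apply ℂ (MvPolynomial (Fin n × Fin n) ℂ) _ c
        change ev0 _ = _
        rw [h1, hev0]
        simp }
  have hXu : X.map ev = u := by
    ext i j
    change ev0 (algebraMap _ _ (Matrix.mvPolynomialX (Fin n) (Fin n) ℂ i j)) = u i j
    rw [hev0]
    simp [Matrix.mvPolynomialX]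
  refine ⟨ev, hXu, ?_⟩
  have h2 : u * (X⁻¹).map ev = 1 := by
    rw [← hXu]
    have h4 : (X * X⁻¹).map ev = X.map ev * (X⁻¹).map ev := Matrix.map_mul
    rw [← h4]
    rw [Matrix.mul_nonsing_inv X hdet]
    ext i j
    simp [Matrix.one_apply, apply_ite ev]
  have h5 : u' * u = 1 := mul_eq_one_comm.1 huu
  calc (X⁻¹).map ev = (u' * u) * (X⁻¹).map ev := by rw [h5, Matrix.one_mul]
    _ = u' := by rw [Matrix.mul_assoc, h2, Matrix.mul_one]

end Gen


section Val

/-- If no polynomial without constant term in the `f x` is `1`, there is a valuation which is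
trivial on the constants and positive on the `f x`. -/
theorem exists_val {K : Type} [Field K] [Algebra ℂ K] {σ : Type} (f : σ → K)
    (hf : ∀ P : MvPolynomial σ ℂ, MvPolynomial.constantCoeff P = 0 →
      MvPolynomial.aeval f P ≠ 1) :
    ∃ O : ValuationSubring K, (∀ c : ℂ, algebraMap ℂ K c ∈ O) ∧ ∀ x, f x ∈ O.nonunits := by
  let A : Subring K := (Algebra.adjoin ℂ (Set.range f)).toSubring
  let I : Ideal A := Ideal.span {a | (a : K) ∈ Set.range f}
  have hA : ∀ a : A, ∃ P : MvPolynomial σ ℂ, (a : K) = MvPolynomial.aeval f P := by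
    intro a
    have h1 : (a : K) ∈ Algebra.adjoin ℂ (Set.range f) := a.2
    rw [Algebra.adjoin_range_eq_range_aeval] at h1
    obtain ⟨P, hP⟩ := h1
    exact ⟨P, hP.symm⟩
  have key : ∀ a ∈ I, ∃ P : MvPolynomial σ ℂ, MvPolynomial.constantCoeff P = 0 ∧
      (a : K) = MvPolynomial.aeval f P := by
    intro a ha
    induction ha using Submodule.span_induction with
    | mem x hx =>
      obtain ⟨s, hs⟩ := hx
      exact ⟨MvPolynomial.X s, by simp, by rw [MvPolynomial.aeval_X, hs]⟩
    | zero => exact ⟨0, by simp, by simp⟩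
    | add x y _ _ hx hy =>
      obtain ⟨P, hP, hP'⟩ := hx
      obtain ⟨Q, hQ, hQ'⟩ := hy
      refine ⟨P + Q, by rw [map_add, hP, hQ, add_zero], ?_⟩
      rw [map_add, ← hP', ← hQ']
      rfl
    | smul a x _ hx =>
      obtain ⟨P, hP, hP'⟩ := hx
      obtain ⟨Q, hQ⟩ := hA a
      refine ⟨Q * P, by rw [map_mul, hP, mul_zero], ?_⟩
      rw [map_mul, ← hP', ← hQ]
      rfl
  have hI : I ≠ ⊤ := by
    intro h
    obtain ⟨P, hP, hP'⟩ := key 1 (by rw [h]; exact Submodule.mem_top)
    exact hf P hP hP'.symm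
  obtain ⟨O, hAO, hIO⟩ := Ideal.image_subset_nonunits_valuationSubring I hI
  refine ⟨O, fun c => ?_, fun x => ?_⟩
  · exact hAO ((Algebra.adjoin ℂ (Set.range f)).algebraMap_mem c)
  · refine hIO ⟨⟨f x, Algebra.subset_adjoin ⟨x, rfl⟩⟩, ?_, rfl⟩
    exact Ideal.subset_span ⟨x, rfl⟩

end Val


section Main

theorem tp_conj_map {R : Type u} {S : Type v} [CommRing R] [CommRing S] {n r : ℕ} (f : R →+* S)
    (A A' : Matrix (Fin n) (Fin n) R) (T : Matrix (Fin r → Fin n) (Fin r → Fin n) R) :
    (tp (Fin r) A * T * tp (Fin r) A').map f =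
      tp (Fin r) (A.map f) * T.map f * tp (Fin r) (A'.map f) := by
  rw [Matrix.map_mul, Matrix.map_mul, tp_map, tp_map]

theorem map_eq_one {R : Type u} {S : Type v} [CommRing R] [CommRing S] {n : ℕ} (f : R →+* S)
    {A A' : Matrix (Fin n) (Fin n) R} (h : A * A' = 1) : A.map f * A'.map f = 1 := by
  rw [← Matrix.map_mul, h, Matrix.map_one f (map_zero f) (map_one f)]

/-- A null family over a field embedded in `ℂ` is, after base change to the residue field of a
valuation ring, in a position with weights. -/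
theorem exists_red (h : S_avg) (n r : ℕ) (τ : Type)
    (Z : τ → Matrix (Fin r → Fin n) (Fin r → Fin n) ℂ) (hZ : Null Z) :
    ∃ (κ : Type) (_ : Field κ) (c : ℂ →+* κ) (V V' : Matrix (Fin n) (Fin n) κ)
      (w : Fin n → ℤ), V * V' = 1 ∧ V' * V = 1 ∧
      ∀ t J I, (tp (Fin r) V * (Z t).map c * tp (Fin r) V') J I ≠ 0 →
        ∑ s, w (I s) < ∑ s, w (J s) := by
  classical
  obtain ⟨R, _, _, _, X, X', hX, hX', hev⟩ := exists_gen n
  let K := FractionRing R
  let f : τ × (Fin r → Fin n) × (Fin r → Fin n) → R := fun x =>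
    (tp (Fin r) X * (Z x.1).map (algebraMap ℂ R) * tp (Fin r) X') x.2.1 x.2.2
  have hf : ∀ P : MvPolynomial (τ × (Fin r → Fin n) × (Fin r → Fin n)) ℂ,
      MvPolynomial.constantCoeff P = 0 →
      MvPolynomial.aeval (fun x => algebraMap R K (f x)) P ≠ 1 := by
    intro P hP h1
    have h2 : MvPolynomial.aeval f P = 1 := by
      apply IsFractionRing.injective R K
      rw [map_one, ← h1]
      exact (MvPolynomial.aeval_algebraMap_apply K f P).symm
    obtain ⟨u, hu, hne⟩ := h n r τ Z hZ P hP
    obtain ⟨ev, he1, he2⟩ := hev u (star u) (Matrix.mem_unitaryGroup_iff.1 hu)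
    apply hne
    have h3 : ev (MvPolynomial.aeval f P) = 1 := by rw [h2, map_one]
    rw [← h3, MvPolynomial.comp_aeval_apply, ← MvPolynomial.coe_aeval_eq_eval]
    have h4 : (fun x : τ × (Fin r → Fin n) × (Fin r → Fin n) =>
        (tp (Fin r) u * Z x.1 * tp (Fin r) (star u)) x.2.1 x.2.2) = fun x => ev (f x) := by
      funext x
      have h5 := tp_conj_map (r := r) (ev : R →+* ℂ) X X' ((Z x.1).map (algebraMap ℂ R))
      have h6 : ((Z x.1).map (algebraMap ℂ R)).map (ev : R →+* ℂ) = Z x.1 := by
        ext a b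
        simp
      have h7 : X.map (ev : R →+* ℂ) = u := he1
      have h8 : X'.map (ev : R →+* ℂ) = star u := he2
      rw [h6, h7, h8] at h5
      rw [← h5]
      rfl
    rw [h4]
    rfl
  obtain ⟨O, hO1, hO2⟩ := exists_val (K := K) (fun x => algebraMap R K (f x)) hf
  -- Smith normal form
  obtain ⟨U, U', V, V', hU, hU', hV, hV', d, hd⟩ :=
    Pool.Agent.Helper819.Gr.smith (O := O) n (X.map (algebraMap R K))
  let cO : ℂ →+* O := (algebraMap ℂ K).codRestrict O.toSubring hO1
  have hcO : ∀ z, O.subtype (cO z) = algebraMap ℂ K z := fun z => rfl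
  have hXK : X.map (algebraMap R K) * X'.map (algebraMap R K) = 1 := map_eq_one _ hX
  have hXK' : X'.map (algebraMap R K) * X.map (algebraMap R K) = 1 := map_eq_one _ hX'
  have hUK : U.map O.subtype * U'.map O.subtype = 1 := map_eq_one _ hU
  have hUK' : U'.map O.subtype * U.map O.subtype = 1 := map_eq_one _ hU'
  have hVK : V.map O.subtype * V'.map O.subtype = 1 := map_eq_one _ hV
  have hd0 : ∀ i, d i ≠ 0 := by
    have h1 : (X.map (algebraMap R K)).det ≠ 0 := by
      intro h0
      have := congrArg Matrix.det hXK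
      rw [Matrix.det_mul, h0, zero_mul, Matrix.det_one] at this
      exact zero_ne_one this
    rw [hd, Matrix.det_mul, Matrix.det_mul, Matrix.det_diagonal] at h1
    have h2 := right_ne_zero_of_mul (left_ne_zero_of_mul h1)
    intro i
    exact (Finset.prod_ne_zero_iff.1 h2) i (mem_univ i)
  have hdd : Matrix.diagonal d * Matrix.diagonal (fun i => (d i)⁻¹) = 1 := by
    rw [Matrix.diagonal_mul_diagonal, ← Matrix.diagonal_one]
    congr 1
    funext i
    exact mul_inv_cancel₀ (hd0 i)
  have hX'K : X'.map (algebraMap R K) =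
      V'.map O.subtype * Matrix.diagonal (fun i => (d i)⁻¹) * U'.map O.subtype := by
    have h1 : X.map (algebraMap R K) *
        (V'.map O.subtype * Matrix.diagonal (fun i => (d i)⁻¹) * U'.map O.subtype) = 1 := by
      rw [hd]
      calc U.map O.subtype * Matrix.diagonal d * V.map O.subtype *
            (V'.map O.subtype * Matrix.diagonal (fun i => (d i)⁻¹) * U'.map O.subtype)
          = U.map O.subtype * (Matrix.diagonal d * (V.map O.subtype * V'.map O.subtype) *
            Matrix.diagonal (fun i => (d i)⁻¹)) * U'.map O.subtype := by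
            simp only [Matrix.mul_assoc]
        _ = 1 := by rw [hVK, Matrix.mul_one, hdd, Matrix.mul_one, hUK]
    calc X'.map (algebraMap R K)
        = X'.map (algebraMap R K) * (X.map (algebraMap R K) *
          (V'.map O.subtype * Matrix.diagonal (fun i => (d i)⁻¹) * U'.map O.subtype)) := by
          rw [h1, Matrix.mul_one]
      _ = _ := by rw [← Matrix.mul_assoc, hXK', Matrix.one_mul]
  -- the matrices over `O`
  let FO : τ → Matrix (Fin r → Fin n) (Fin r → Fin n) O := fun t => Matrix.of fun J I =>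
    ⟨algebraMap R K (f (t, J, I)), O.nonunits_subset (hO2 (t, J, I))⟩
  let res : O →+* IsLocalRing.ResidueField O := IsLocalRing.residue O
  have hFO : ∀ t, (FO t).map res = 0 := by
    intro t
    ext J I
    rw [Matrix.map_apply, Matrix.zero_apply]
    exact (IsLocalRing.residue_eq_zero_iff _).2 (ValuationSubring.coe_mem_nonunits_iff.1 (hO2 (t, J, I)))
  let WO : τ → Matrix (Fin r → Fin n) (Fin r → Fin n) O := fun t =>
    tp (Fin r) V * (Z t).map cO * tp (Fin r) V'
  let MO : τ → Matrix (Fin r → Fin n) (Fin r → Fin n) O := fun t =>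
    tp (Fin r) U' * FO t * tp (Fin r) U
  have hMO : ∀ t J I, O.valuation (MO t J I : K) < 1 := by
    intro t J I
    rw [← ValuationSubring.mem_nonunits_iff, ValuationSubring.coe_mem_nonunits_iff,
      ← IsLocalRing.residue_eq_zero_iff]
    have h1 : (MO t).map res = 0 := by
      have h2 := tp_conj_map (r := r) res U' U (FO t)
      rw [hFO, Matrix.mul_zero, Matrix.zero_mul] at h2
      exact h2
    exact congrFun (congrFun h1 J) I
  have hMW : ∀ t J I, (MO t J I : K) = (∏ a, d (J a)) * (WO t J I : K) * ∏ a, (d (I a))⁻¹ := by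
    intro t J I
    have h1 : (FO t).map O.subtype = tp (Fin r) (X.map (algebraMap R K)) *
        (Z t).map (algebraMap ℂ K) * tp (Fin r) (X'.map (algebraMap R K)) := by
      have h2 := tp_conj_map (r := r) (algebraMap R K) X X' ((Z t).map (algebraMap ℂ R))
      have h3 : ((Z t).map (algebraMap ℂ R)).map (algebraMap R K) = (Z t).map (algebraMap ℂ K) := by
        ext a b
        simp only [Matrix.map_apply]
        exact (IsScalarTower.algebraMap_apply ℂ R K _).symm
      rw [h3] at h2
      rw [← h2]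
      rfl
    have h4 : (MO t).map O.subtype = Matrix.diagonal (fun J : Fin r → Fin n => ∏ a, d (J a)) *
        (WO t).map O.subtype *
        Matrix.diagonal (fun J : Fin r → Fin n => ∏ a, (d (J a))⁻¹) := by
      have h5 : (MO t).map O.subtype = tp (Fin r) (U'.map O.subtype) *
          (FO t).map O.subtype * tp (Fin r) (U.map O.subtype) := tp_conj_map _ _ _ _
      have h6 : (WO t).map O.subtype = tp (Fin r) (V.map O.subtype) *
          (Z t).map (algebraMap ℂ K) * tp (Fin r) (V'.map O.subtype) := tp_conj_map _ _ _ _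
      rw [h5, h1, hX'K, hd, h6, tp_mul, tp_mul, tp_mul, tp_mul, tp_diagonal, tp_diagonal]
      have h7 : tp (Fin r) (U'.map O.subtype) * tp (Fin r) (U.map O.subtype) = 1 :=
        tp_mul_cancel hUK'
      generalize tp (Fin r) (U'.map O.subtype) = u' at *
      generalize tp (Fin r) (U.map O.subtype) = u at *
      generalize tp (Fin r) (V.map O.subtype) = v at *
      generalize tp (Fin r) (V'.map O.subtype) = v' at *
      generalize Matrix.diagonal (fun J : Fin r → Fin n => ∏ a, d (J a)) = D at *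
      generalize Matrix.diagonal (fun J : Fin r → Fin n => ∏ a, (d (J a))⁻¹) = D' at *
      calc u' * (u * D * v * (Z t).map (algebraMap ℂ K) * (v' * D' * u')) * u
          = (u' * u) * (D * (v * (Z t).map (algebraMap ℂ K) * v') * D') * (u' * u) := by
            simp only [Matrix.mul_assoc]
        _ = _ := by rw [h7, Matrix.one_mul, Matrix.mul_one]
    have h8 := congrFun (congrFun h4 J) I
    rw [Matrix.mul_diagonal, Matrix.diagonal_mul] at h8
    exact h8
  -- the weights
  let S : Finset ((Fin r → Fin n) × (Fin r → Fin n)) :=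
    univ.filter fun p => ∃ t, res (WO t p.1 p.2) ≠ 0
  have hvd : ∀ i, O.valuation (d i) ≠ 0 := fun i => (Valuation.ne_zero_iff _).2 (hd0 i)
  let x : Fin n → Additive (O.ValueGroup)ˣ := fun i => Additive.ofMul (Units.mk0 (O.valuation (d i)) (hvd i))
  have hval : ∀ J : Fin r → Fin n, ((∑ s, x (J s)).toMul : O.ValueGroup) = O.valuation (∏ a, d (J a)) := by
    intro J
    rw [toMul_sum, Units.coe_prod, map_prod]
    rfl
  have hS : ∀ p ∈ S, ∑ s, x (p.1 s) < ∑ s, x (p.2 s) := by
    rintro ⟨J, I⟩ hp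
    obtain ⟨t, ht⟩ := (Finset.mem_filter.1 hp).2
    have h1 : O.valuation (WO t J I : K) = 1 := by
      rw [← ValuationSubring.valuation_eq_one_iff]
      exact (IsLocalRing.residue_ne_zero_iff_isUnit _).1 ht
    have h2 := hMO t J I
    rw [hMW, map_mul, map_mul, h1, mul_one] at h2
    have h3 : O.valuation (∏ a, (d (I a))⁻¹) = (O.valuation (∏ a, d (I a)))⁻¹ := by
      rw [Finset.prod_inv_distrib, map_inv₀]
    rw [h3, ← div_eq_mul_inv, div_lt_one₀ (zero_lt_iff.2 ((Valuation.ne_zero_iff _).2
      (Finset.prod_ne_zero_iff.2 fun a _ => hd0 _))), ← hval, ← hval, Units.val_lt_val] at h2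
    exact h2
  obtain ⟨w, hw⟩ := weights x S hS
  refine ⟨IsLocalRing.ResidueField O, inferInstance, res.comp cO, V.map res, V'.map res,
    fun i => -w i, map_eq_one _ hV, map_eq_one _ hV', ?_⟩
  intro t J I hne
  have h1 : (J, I) ∈ S := by
    refine Finset.mem_filter.2 ⟨mem_univ _, t, ?_⟩
    have h2 : (WO t).map res = tp (Fin r) (V.map res) * ((Z t).map cO).map res *
      tp (Fin r) (V'.map res) := tp_conj_map _ _ _ _
    have h3 := congrFun (congrFun h2 J) I
    rw [Matrix.map_map] at h3
    intro h0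
    apply hne
    rw [Matrix.map_apply] at h3
    exact h3.symm.trans h0
  have h2 := hw _ h1
  rw [Finset.sum_neg_distrib, Finset.sum_neg_distrib]
  exact neg_lt_neg h2

theorem null_map {R : Type u} {S : Type v} [CommRing R] [CommRing S] {n r : ℕ} {τ : Type}
    (f : R →+* S) (Z : τ → Matrix (Fin r → Fin n) (Fin r → Fin n) R) (hZ : Null Z) :
    Null fun t => (Z t).map f := by
  intro k hk w π
  have h1 := congrArg f (hZ k hk w π)
  rw [map_sum, map_zero] at h1
  rw [← h1]
  refine Finset.sum_congr rfl fun I _ => ?_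
  rw [map_prod]
  rfl

/-- The criterion of Hilbert and Mumford. -/
theorem main (h : S_avg) : S_hm.{v} := by
  intro L _ _ j n r τ _ Z hZ
  obtain ⟨κ, _, c, V, V', w, hV, hV', hw⟩ :=
    exists_red h n r τ (fun t => (Z t).map j) (null_map j Z hZ)
  let _ : Algebra L κ := (c.comp j).toAlgebra
  obtain ⟨B, W, W', φ, hW, hW'⟩ := transfer L κ n V V'
  have hinj : Function.Injective (B.val : B →+* κ) := Subtype.val_injective
  have hWmap : W.map (B.val : B →+* κ) = V := hW.symm
  have hWmap' : W'.map (B.val : B →+* κ) = V' := hW'.symm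
  have hWW : W * W' = 1 := by
    apply Matrix.map_injective hinj
    beta_reduce
    rw [Matrix.map_mul, hWmap, hWmap', hV,
      Matrix.map_one (B.val : B →+* κ) (map_zero _) (map_one _)]
  have hWW' : W' * W = 1 := by
    apply Matrix.map_injective hinj
    beta_reduce
    rw [Matrix.map_mul, hWmap, hWmap', hV',
      Matrix.map_one (B.val : B →+* κ) (map_zero _) (map_one _)]
  refine ⟨⟨W.map (φ : B →+* L), W'.map (φ : B →+* L), map_eq_one _ hWW, map_eq_one _ hWW'⟩, w, ?_⟩
  intro t J I hne
  apply hw t J I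
  intro h0
  apply hne
  change (tp (Fin r) (W.map (φ : B →+* L)) * Z t * tp (Fin r) (W'.map (φ : B →+* L))) J I = 0
  have h1 : (tp (Fin r) W * (Z t).map (algebraMap L B) * tp (Fin r) W') J I = 0 := by
    apply hinj
    rw [map_zero, ← h0]
    have h2 := tp_conj_map (r := r) (B.val : B →+* κ) W W' ((Z t).map (algebraMap L B))
    rw [hWmap, hWmap'] at h2
    exact congrFun (congrFun h2 J) I
  have h3 := tp_conj_map (r := r) (φ : B →+* L) W W' ((Z t).map (algebraMap L B))
  have h4 : ((Z t).map (algebraMap L B)).map (φ : B →+* L) = Z t := by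
    ext a b
    simp
  rw [h4] at h3
  rw [← h3, Matrix.map_apply, h1, map_zero]

end Main

end Pool.Agent.Y180.KN
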