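import Pool.Agent.Y150.KN.Stm3

/-!
# Correspondences from endomorphisms, and from forms to classes
-/

set_option autoImplicit false

open CategoryTheory AlgebraicGeometry

namespace Pool.Agent.Y180.KN

universe u v w

open Pool.Agent.H914 VarClass Obj
open Pool.Agent.Y150.KN

section AV4

variable {k : Type u} [Field k] {𝒱 : VarClass k} {ops : CycleOps 𝒱} (W : Coh.{u, v} ops)

/-- The operator given by the graph of a morphism. -/
lemma push_graph {X : 𝒱.Obj} (h : X ⟶ X) (y : W.H X) :
    W.push (fst X X) (W.push (Obj.lift h (𝟙 X)) 1 * W.map (snd X X) y) = W.push h y := by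
  rw [← W.push_mul, one_mul, ← W.push_comp, ← W.map_comp, Obj.lift_fst, Obj.lift_snd, W.map_id]

lemma av4_aux (X : 𝒱.Obj) (ζ : W.H X) (hζ : ζ ∈ W.gr X (2 * (X.dim - 1))) (hX : 0 < X.dim)
    (a' : Module.End W.K (W.gr X 1))
    (ha : a' ∈ Submodule.span W.K {b : Module.End W.K (W.gr X 1) |
          ∃ h : X ⟶ X, ∀ x : W.gr X 1, (b x : W.H X) = W.map h (x : W.H X)}) :
    ∃ γ ∈ W.algSpan (X.prod X), ∀ x : W.gr X 1,
      (∀ c : W.gr X 1, W.tr X (W.push (fst X X) (γ * W.map (snd X X) ((x : W.H X) * ζ)) *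
        (c : W.H X)) = W.tr X ((x : W.H X) * ζ * (a' c : W.H X))) ∧
      ∀ l, l ≠ 1 → ∀ c ∈ W.gr X l,
        W.tr X (W.push (fst X X) (γ * W.map (snd X X) ((x : W.H X) * ζ)) * c) = 0 := by
  induction ha using Submodule.span_induction with
  | mem b hb =>
    obtain ⟨h, hh⟩ := hb
    refine ⟨W.push (Obj.lift h (𝟙 X)) 1, W.push_mem_alg _ (W.one_mem_alg X), fun x => ⟨?_, ?_⟩⟩
    · intro c
      rw [push_graph, W.tr_push, ← hh]
    · intro l hl c hc
      rw [push_graph, W.tr_push]
      refine W.tr_eq_zero (W.mul_mem (W.mul_mem x.2 hζ) (W.map_mem h hc)) ?_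
      omega
  | zero =>
    refine ⟨0, Submodule.zero_mem _, fun x => ⟨?_, ?_⟩⟩
    · intro c
      simp
    · intro l hl c hc
      simp
  | add b b' _ _ hb hb' =>
    obtain ⟨γ, hγ, h1⟩ := hb
    obtain ⟨γ', hγ', h2⟩ := hb'
    refine ⟨γ + γ', Submodule.add_mem _ hγ hγ', fun x => ⟨?_, ?_⟩⟩
    · intro c
      rw [add_mul, map_add, add_mul, map_add, (h1 x).1, (h2 x).1, LinearMap.add_apply,
        Submodule.coe_add, mul_add, map_add]
    · intro l hl c hc
      rw [add_mul, map_add, add_mul, map_add, (h1 x).2 l hl c hc, (h2 x).2 l hl c hc, add_zero]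
  | smul q b _ hb =>
    obtain ⟨γ, hγ, h1⟩ := hb
    refine ⟨q • γ, Submodule.smul_mem _ _ hγ, fun x => ⟨?_, ?_⟩⟩
    · intro c
      rw [smul_mul_assoc, map_smul, smul_mul_assoc, map_smul, (h1 x).1, LinearMap.smul_apply,
        Submodule.coe_smul, mul_smul_comm, map_smul]
    · intro l hl c hc
      rw [smul_mul_assoc, map_smul, smul_mul_assoc, map_smul, (h1 x).2 l hl c hc, smul_zero]

end AV4

theorem av4 : S_av4.{u, v} := by
  intro k _ 𝒱 ops W X ζ hζ hX a a' haa ha
  obtain ⟨γ, hγ, h⟩ := av4_aux W X ζ hζ hX a' ha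
  refine ⟨γ, hγ, fun x => ?_⟩
  apply W.tr_ext
  intro c
  refine W.gr_induction (p := fun c => W.tr X (W.push (fst X X)
    (γ * W.map (snd X X) ((x : W.H X) * ζ)) * c) = W.tr X ((a x : W.H X) * ζ * c)) ?_ ?_ c
  · intro l c hc
    by_cases hl : l = 1
    · subst hl
      have h1 := (h x).1 ⟨c, hc⟩
      have h2 := haa x ⟨c, hc⟩
      simp only at h1 h2
      rw [h1, mul_assoc, W.even_comm hζ, ← mul_assoc, ← h2, mul_assoc, mul_assoc,
        W.even_comm hζ]
    · rw [(h x).2 l hl c hc]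
      symm
      refine W.tr_eq_zero (W.mul_mem (W.mul_mem (a x).2 hζ) hc) ?_
      omega
  · intro c c' hc hc'
    rw [mul_add, map_add, mul_add, map_add, hc, hc']


section AV3

variable {k : Type u} [Field k] {𝒱 : VarClass k} {ops : CycleOps 𝒱} (W : Coh.{u, v} ops)

lemma list_mem {X : 𝒱.Obj} (l : List (W.H X)) (hl : ∀ y ∈ l, y ∈ W.gr X 1) :
    l.prod ∈ W.gr X l.length := by
  induction l with
  | nil => exact W.one_mem X
  | cons a l ih =>
    rw [List.prod_cons, List.length_cons, add_comm]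
    exact W.mul_mem (hl a List.mem_cons_self) (ih fun y hy => hl y (List.mem_cons_of_mem _ hy))

lemma ofFn_mem {X : 𝒱.Obj} {m : ℕ} (v : Fin m → W.gr X 1) :
    (List.ofFn fun i => (v i : W.H X)).prod ∈ W.gr X m := by
  have h := list_mem W (List.ofFn fun i => (v i : W.H X)) (by
    intro y hy
    obtain ⟨i, rfl⟩ := (List.mem_ofFn' _ _).1 hy
    exact (v i).2)
  rwa [List.length_ofFn] at h

/-- The combinations of the products of `m` elements of degree one. -/
def mon (X : 𝒱.Obj) (m : ℕ) : Submodule W.K (W.H X) :=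
  Submodule.span W.K {x | ∃ v : Fin m → W.gr X 1, x = (List.ofFn fun i => (v i : W.H X)).prod}

lemma mon_le (X : 𝒱.Obj) (m : ℕ) : mon W X m ≤ W.gr X m := by
  refine Submodule.span_le.2 ?_
  rintro _ ⟨v, rfl⟩
  exact ofFn_mem W v

lemma mem_mon {X : 𝒱.Obj} (hX : Algebra.adjoin W.K (W.gr X 1 : Set (W.H X)) = ⊤) {n : ℕ}
    {z : W.H X} (hz : z ∈ W.gr X n) : z ∈ mon W X n := by
  rcases lt_or_ge (2 * X.dim) n with hn | hn
  · rw [W.gr_eq_bot X n hn, Submodule.mem_bot] at hz
    rw [hz]
    exact Submodule.zero_mem _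
  obtain ⟨l, hl⟩ := Nat.exists_eq_add_of_le hn
  have key : ∀ a : W.H X, ∃ s ∈ mon W X n, ∀ c ∈ W.gr X l, W.tr X (a * c) = W.tr X (s * c) := by
    intro a
    have ha : a ∈ Subalgebra.toSubmodule (Algebra.adjoin W.K (W.gr X 1 : Set (W.H X))) := by
      rw [hX]; trivial
    rw [Algebra.adjoin_eq_span] at ha
    induction ha using Submodule.span_induction with
    | mem x hx =>
      obtain ⟨L, hL, rfl⟩ := Submonoid.exists_list_of_mem_closure hx
      by_cases hLn : L.length = n
      · refine ⟨L.prod, ?_, fun c _ => rfl⟩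
        subst hLn
        refine Submodule.subset_span ⟨fun i => ⟨L.get i, hL _ (List.get_mem _ _)⟩, ?_⟩
        congr 1
        exact (List.ofFn_get L).symm
      · refine ⟨0, Submodule.zero_mem _, fun c hc => ?_⟩
        rw [zero_mul, map_zero]
        refine W.tr_eq_zero (W.mul_mem (list_mem W L hL) hc) ?_
        omega
    | zero => exact ⟨0, Submodule.zero_mem _, fun c _ => by simp⟩
    | add x y _ _ hx hy =>
      obtain ⟨s, hs, h1⟩ := hx
      obtain ⟨t, ht, h2⟩ := hy
      refine ⟨s + t, Submodule.add_mem _ hs ht, fun c hc => ?_⟩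
      rw [add_mul, map_add, h1 c hc, h2 c hc, add_mul, map_add]
    | smul q x _ hx =>
      obtain ⟨s, hs, h1⟩ := hx
      refine ⟨q • s, Submodule.smul_mem _ _ hs, fun c hc => ?_⟩
      rw [smul_mul_assoc, map_smul, h1 c hc, smul_mul_assoc, map_smul]
  obtain ⟨s, hs, h⟩ := key z
  have h0 : z - s = 0 := by
    refine W.eq_zero_of_gr (i := n) (l := l) hl.symm
      (Submodule.sub_mem _ hz (mon_le W X n hs)) ?_
    intro b hb
    rw [sub_mul, map_sub, h b hb, sub_self]
  rw [sub_eq_zero.1 h0]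
  exact hs

/-- The sign rule for elements of odd degree. -/
lemma odd_perm (hs : S_sgn.{v, 0}) {ι : Type} {L L' : List ι} (h : L.Perm L') :
    ∃ s : ℤ, (s = 1 ∨ s = -1) ∧ ∀ (P : 𝒱.Obj) (y : ι → W.H P) (d : ι → ℕ), (∀ a, Odd (d a)) →
      (∀ a, y a ∈ W.gr P (d a)) → (L.map y).prod = s • (L'.map y).prod := by
  obtain ⟨s, hs1, hs2⟩ := hs h (fun _ => 1)
  refine ⟨s, hs1, fun P y d hd hy => hs2 (W.H P) y fun a b _ => ?_⟩
  rw [W.comm (hy a) (hy b), ((hd a).mul (hd b)).neg_one_pow]
  simp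

variable {X P : 𝒱.Obj} {n : ℕ} (pr : Fin n → (P ⟶ X)) (ζ : W.H X)

/-- The product of the elements `pr i ^* (x i * ζ)`. -/
noncomputable def prd (x : Fin n → W.H X) : W.H P :=
  (List.ofFn fun i => W.map (pr i) (x i * ζ)).prod

/-- The family of all factors. -/
noncomputable def fac (φ : Fin n → Fin n) (v x : Fin n → W.H X) : Fin n ⊕ Fin n → W.H P :=
  Sum.elim (fun k => W.map (pr (φ k)) (v k)) (fun i => W.map (pr i) (x i * ζ))

/-- The concatenated list. -/
def lcat (n : ℕ) : List (Fin n ⊕ Fin n) :=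
  (List.finRange n).map Sum.inl ++ (List.finRange n).map Sum.inr

lemma lcat_nodup (n : ℕ) : (lcat n).Nodup := by
  refine List.Nodup.append ?_ ?_ ?_
  · exact (List.nodup_finRange n).map Sum.inl_injective
  · exact (List.nodup_finRange n).map Sum.inr_injective
  · intro a ha hb
    obtain ⟨i, _, rfl⟩ := List.mem_map.1 ha
    obtain ⟨j, _, h⟩ := List.mem_map.1 hb
    exact absurd h (by simp)

lemma mem_lcat {n : ℕ} (a : Fin n ⊕ Fin n) : a ∈ lcat n := by
  unfold lcat
  rcases a with a | a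
  · exact List.mem_append_left _ (List.mem_map_of_mem (List.mem_finRange a))
  · exact List.mem_append_right _ (List.mem_map_of_mem (List.mem_finRange a))

/-- The list grouped by the factors. -/
def lgrp (φ : Fin n → Fin n) : List (Fin n ⊕ Fin n) :=
  (List.finRange n).flatMap fun i =>
    ((List.finRange n).filter fun k => φ k = i).map Sum.inl ++ [Sum.inr i]

lemma mem_lgrp (φ : Fin n → Fin n) (a : Fin n ⊕ Fin n) : a ∈ lgrp φ := by
  unfold lgrp
  rw [List.mem_flatMap]
  rcases a with a | a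
  · refine ⟨φ a, List.mem_finRange _, List.mem_append_left _ (List.mem_map_of_mem ?_)⟩
    rw [List.mem_filter]
    exact ⟨List.mem_finRange _, by simp⟩
  · exact ⟨a, List.mem_finRange _, List.mem_append_right _ (by simp)⟩

lemma lgrp_nodup (φ : Fin n → Fin n) : (lgrp φ).Nodup := by
  unfold lgrp
  rw [List.nodup_flatMap]
  refine ⟨fun i _ => ?_, ?_⟩
  · refine List.Nodup.append ?_ (List.nodup_singleton _) ?_
    · exact ((List.nodup_finRange n).filter _).map Sum.inl_injective
    · intro a ha hb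
      obtain ⟨j, _, rfl⟩ := List.mem_map.1 ha
      simp at hb
  · refine List.Pairwise.imp_of_mem ?_ (List.nodup_finRange n)
    intro i j _ _ hij
    show List.Disjoint _ _
    intro a ha hb
    rw [List.mem_append] at ha hb
    rcases a with a | a
    · rcases ha with ha | ha
      · rcases hb with hb | hb
        · obtain ⟨c, hc, hca⟩ := List.mem_map.1 ha
          obtain ⟨c', hc', hca'⟩ := List.mem_map.1 hb
          have e1 : c = a := Sum.inl_injective hca
          have e2 : c' = a := Sum.inl_injective hca'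
          rw [List.mem_filter] at hc hc'
          have h1 : φ c = i := by simpa using hc.2
          have h2 : φ c' = j := by simpa using hc'.2
          rw [e1] at h1
          rw [e2] at h2
          exact hij (h1.symm.trans h2)
        · simp at hb
      · simp at ha
    · rcases ha with ha | ha
      · simp at ha
      · rcases hb with hb | hb
        · simp at hb
        · simp only [List.mem_singleton, Sum.inr.injEq] at ha hb
          exact hij (ha.symm.trans hb)

lemma lcat_perm (φ : Fin n → Fin n) : (lcat n).Perm (lgrp φ) :=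
  (List.perm_ext_iff_of_nodup (lcat_nodup n) (lgrp_nodup φ)).2 fun a =>
    ⟨fun _ => mem_lgrp φ a, fun _ => mem_lcat a⟩

lemma lcat_prod (φ : Fin n → Fin n) (v x : Fin n → W.H X) :
    ((lcat n).map (fac W pr ζ φ v x)).prod =
      (List.ofFn fun k => W.map (pr (φ k)) (v k)).prod * prd W pr ζ x := by
  unfold lcat prd
  rw [List.map_append, List.prod_append, List.map_map, List.map_map, List.ofFn_eq_map,
    List.ofFn_eq_map]
  rfl

lemma lgrp_prod (φ : Fin n → Fin n) (v x : Fin n → W.H X) :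
    ((lgrp φ).map (fac W pr ζ φ v x)).prod =
      (List.ofFn fun i => W.map (pr i)
        ((((List.finRange n).filter fun k => φ k = i).map v).prod * (x i * ζ))).prod := by
  unfold lgrp
  rw [List.map_flatMap, List.flatMap_def, List.prod_flatten, List.map_map, List.ofFn_eq_map]
  congr 1
  refine List.map_congr_left fun i _ => ?_
  simp only [Function.comp_apply, List.map_append, List.prod_append, List.map_map, List.map_cons,
    List.map_nil, List.prod_cons, List.prod_nil, mul_one]
  rw [_root_.map_mul, map_list_prod, List.map_map]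
  congr 2
  refine List.map_congr_left fun c hc => ?_
  rw [List.mem_filter] at hc
  have h1 : φ c = i := by simpa using hc.2
  simp only [Function.comp_apply, fac, Sum.elim_inl, h1]

lemma fac_mem (hζ : ζ ∈ W.gr X (2 * (X.dim - 1))) (φ : Fin n → Fin n) {v x : Fin n → W.H X}
    (hv : ∀ i, v i ∈ W.gr X 1) (hx : ∀ i, x i ∈ W.gr X 1) (a : Fin n ⊕ Fin n) :
    fac W pr ζ φ v x a ∈
      W.gr P (Sum.elim (fun _ => 1) (fun _ => 1 + 2 * (X.dim - 1)) a) := by
  rcases a with a | a
  · exact W.map_mem _ (hv a)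
  · exact W.map_mem _ (W.mul_mem (hx a) hζ)

lemma fac_odd (X : 𝒱.Obj) (a : Fin n ⊕ Fin n) :
    Odd (Sum.elim (fun _ => 1) (fun _ => 1 + 2 * (X.dim - 1)) a) := by
  rcases a with a | a
  · exact odd_one
  · exact ⟨X.dim - 1, by simp [add_comm]⟩

/-- The trace of a product of `2 n` factors. -/
lemma tr_grp (hs : S_sgn.{v, 0}) (hP : IsPw W X P pr) (hζ : ζ ∈ W.gr X (2 * (X.dim - 1)))
    (φ : Fin n → Fin n) : ∃ s : ℤ, (s = 1 ∨ s = -1) ∧ ∀ v x : Fin n → W.H X,
      (∀ i, v i ∈ W.gr X 1) → (∀ i, x i ∈ W.gr X 1) →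
      W.tr P ((List.ofFn fun k => W.map (pr (φ k)) (v k)).prod * prd W pr ζ x) =
        s • ∏ i, W.tr X ((((List.finRange n).filter fun k => φ k = i).map v).prod *
          (x i * ζ)) := by
  obtain ⟨s, hs1, hs2⟩ := odd_perm W hs (lcat_perm φ)
  refine ⟨s, hs1, fun v x hv hx => ?_⟩
  rw [← lcat_prod, hs2 P _ _ (fac_odd X) (fac_mem W pr ζ hζ φ hv hx), lgrp_prod, map_zsmul,
    hP.tr_prod]

lemma tr_phi (hs : S_sgn.{v, 0}) (hP : IsPw W X P pr) (hζ : ζ ∈ W.gr X (2 * (X.dim - 1)))
    (hX : 0 < X.dim) (φ : Fin n → Fin n) (hφ : ¬ Function.Surjective φ) (v x : Fin n → W.H X)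
    (hv : ∀ i, v i ∈ W.gr X 1) (hx : ∀ i, x i ∈ W.gr X 1) :
    W.tr P ((List.ofFn fun k => W.map (pr (φ k)) (v k)).prod * prd W pr ζ x) = 0 := by
  obtain ⟨s, _, hs2⟩ := tr_grp W pr ζ hs hP hζ φ
  rw [hs2 v x hv hx]
  have : ∃ i, ∀ k, φ k ≠ i := by
    by_contra hcon
    push Not at hcon
    exact hφ hcon
  obtain ⟨i, hi⟩ := this
  rw [Finset.prod_eq_zero (Finset.mem_univ i), smul_zero]
  have h1 : (List.finRange n).filter (fun k => φ k = i) = [] := by
    rw [List.filter_eq_nil_iff]
    intro k _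
    simpa using hi k
  rw [h1, List.map_nil, List.prod_nil, one_mul]
  refine W.tr_eq_zero (W.mul_mem (hx i) hζ) ?_
  omega

/-- The trace of a product of `n` pairs. -/
lemma tr_pair (hs : S_sgn.{v, 0}) (hP : IsPw W X P pr) (hζ : ζ ∈ W.gr X (2 * (X.dim - 1))) :
    ∃ s : ℤ, (s = 1 ∨ s = -1) ∧ ∀ v x : Fin n → W.H X,
      (∀ i, v i ∈ W.gr X 1) → (∀ i, x i ∈ W.gr X 1) →
      W.tr P ((List.ofFn fun i => W.map (pr i) (v i)).prod * prd W pr ζ x) =
        s • ∏ i, W.tr X (v i * (x i * ζ)) := by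
  obtain ⟨s, hs1, hs2⟩ := tr_grp W pr ζ hs hP hζ id
  refine ⟨s, hs1, fun v x hv hx => ?_⟩
  have h1 := hs2 v x hv hx
  simp only [id] at h1
  rw [h1]
  congr 1
  refine Finset.prod_congr rfl fun i _ => ?_
  have h2 : (List.finRange n).filter (fun k => decide (k = i)) = [i] := by
    rw [List.filter_eq, List.count_eq_one_of_mem (List.nodup_finRange n) (List.mem_finRange i)]
    rfl
  rw [h2]
  simp

/-- The product of the pull-backs as a multilinear map. -/
noncomputable def mlt : MultilinearMap W.K (fun _ : Fin n => W.gr X 1) (W.H P) :=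
  (MultilinearMap.mkPiAlgebraFin W.K n (W.H P)).compLinearMap
    fun i => (W.map (pr i)).toLinearMap ∘ₗ (W.gr X 1).subtype

lemma mlt_apply (u : Fin n → W.gr X 1) :
    mlt W pr u = (List.ofFn fun i => W.map (pr i) (u i : W.H X)).prod := rfl

/-- Nondegeneracy in multidegree `(1, …, 1)`. -/
lemma mlt_nondeg (hs : S_sgn.{v, 0}) (hP : IsPw W X P pr) (hζ : ζ ∈ W.gr X (2 * (X.dim - 1)))
    (hnd : ∀ x ∈ W.gr X 1, (∀ y ∈ W.gr X 1, W.tr X (x * y * ζ) = 0) → x = 0)
    {b : W.H P} (hb : b ∈ Submodule.span W.K (Set.range (mlt W pr)))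
    (h0 : ∀ x : Fin n → W.H X, (∀ i, x i ∈ W.gr X 1) → W.tr P (b * prd W pr ζ x) = 0) :
    b = 0 := by
  classical
  obtain ⟨s, hs1, hs2⟩ := tr_pair W pr ζ hs hP hζ
  have hss : (s : W.K) * (s : W.K) = 1 := by
    rcases hs1 with h | h <;> rw [h] <;> norm_num
  -- the dual basis
  let e := Module.finBasis W.K (W.gr X 1)
  let T : W.gr X 1 →ₗ[W.K] Module.Dual W.K (W.gr X 1) :=
    LinearMap.mk₂ W.K (fun x y => W.tr X ((y : W.H X) * ((x : W.H X) * ζ)))
      (by intro x x' y; simp [add_mul, mul_add])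
      (by intro c x y; simp)
      (by intro x y y'; simp [add_mul])
      (by intro c x y; simp)
  have hT : ∀ x y, T x y = W.tr X ((y : W.H X) * ((x : W.H X) * ζ)) := fun x y => rfl
  have hTi : Function.Injective T := by
    rw [← LinearMap.ker_eq_bot, LinearMap.ker_eq_bot']
    intro x hx
    apply Subtype.ext
    refine hnd x x.2 fun y hy => ?_
    have h1 := congrArg (fun f => f ⟨y, hy⟩) hx
    simp only [hT, LinearMap.zero_apply] at h1
    have h2 := W.comm x.2 hy
    rw [h2]
    simp only [mul_one, pow_one, neg_smul, one_smul]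
    rw [neg_mul, map_neg, mul_assoc, h1, neg_zero]
  have hTs : Function.Surjective T :=
    (LinearMap.injective_iff_surjective_of_finrank_eq_finrank
      Subspace.dual_finrank_eq.symm).1 hTi
  choose f hf using fun j => hTs (e.coord j)
  have hf' : ∀ j (y : W.gr X 1), W.tr X ((y : W.H X) * ((f j : W.H X) * ζ)) = e.coord j y := by
    intro j y
    rw [← hT, hf]
  -- expansion
  have key : ∀ b ∈ Submodule.span W.K (Set.range (mlt W pr)), b =
      ∑ J : Fin n → Fin (Module.finrank W.K (W.gr X 1)),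
        ((s : W.K) * W.tr P (b * prd W pr ζ fun i => (f (J i) : W.H X))) •
          mlt W pr (fun i => e (J i)) := by
    intro b hb
    induction hb using Submodule.span_induction with
    | mem x hx =>
      obtain ⟨u, rfl⟩ := hx
      have h1 : mlt W pr u = mlt W pr (fun i => ∑ j, e.coord j (u i) • e j) := by
        congr 1
        funext i
        exact (e.sum_repr (u i)).symm
      conv_lhs => rw [h1]
      rw [MultilinearMap.map_sum (mlt W pr) (fun i j => e.coord j (u i) • e j)]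
      refine Finset.sum_congr rfl fun J _ => ?_
      rw [MultilinearMap.map_smul_univ (mlt W pr) (fun i => e.coord (J i) (u i))
        (fun i => e (J i))]
      congr 1
      rw [mlt_apply, hs2 _ _ (fun i => (u i).2) (fun i => (f (J i)).2)]
      simp only [hf']
      rw [zsmul_eq_mul, ← mul_assoc, hss, one_mul]
    | zero => simp
    | add x y _ _ hx hy =>
      conv_lhs => rw [hx, hy]
      rw [← Finset.sum_add_distrib]
      refine Finset.sum_congr rfl fun J _ => ?_
      rw [← add_smul, add_mul, map_add, mul_add]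
    | smul q x _ hx =>
      conv_lhs => rw [hx]
      rw [Finset.smul_sum]
      refine Finset.sum_congr rfl fun J _ => ?_
      rw [smul_smul, smul_mul_assoc, map_smul, smul_eq_mul]
      congr 1
      ring
  rw [key b hb]
  refine Finset.sum_eq_zero fun J _ => ?_
  rw [h0 _ fun i => (f (J i)).2, mul_zero, zero_smul]

/-- The symmetrisation. -/
noncomputable def sym (v : Fin n → W.gr X 1) : W.H P :=
  ∑ σ : Equiv.Perm (Fin n), (List.ofFn fun k => W.map (pr (σ k)) (v k : W.H X)).prod

lemma sym_mem (hs : S_sgn.{v, 0}) (v : Fin n → W.gr X 1) :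
    sym W pr v ∈ Submodule.span W.K (Set.range (mlt W pr)) := by
  refine Submodule.sum_mem _ fun σ _ => ?_
  obtain ⟨s, _, hs2⟩ := odd_perm W hs (Equiv.Perm.map_finRange_perm σ)
  have h1 := hs2 P (fun i => W.map (pr i) (v (σ.symm i) : W.H X)) (fun _ => 1)
    (fun _ => odd_one) (fun i => W.map_mem _ (v _).2)
  have h2 : (List.ofFn fun k => W.map (pr (σ k)) (v k : W.H X)).prod =
      (((List.finRange n).map σ).map
        fun i => W.map (pr i) (v (σ.symm i) : W.H X)).prod := by
    rw [List.ofFn_eq_map, List.map_map]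
    congr 2
    funext k
    simp
  rw [h2, h1]
  refine Submodule.smul_of_tower_mem _ s (Submodule.subset_span ⟨fun i => v (σ.symm i), ?_⟩)
  rw [mlt_apply, List.ofFn_eq_map]

lemma sym_diag (v : Fin n → W.gr X 1) (d : X ⟶ P) (hd : ∀ i, d ≫ pr i = 𝟙 X) :
    W.map d (sym W pr v) = (n.factorial : W.K) • (List.ofFn fun i => (v i : W.H X)).prod := by
  unfold sym
  rw [map_sum]
  have h1 : ∀ σ : Equiv.Perm (Fin n),
      W.map d (List.ofFn fun k => W.map (pr (σ k)) (v k : W.H X)).prod =
        (List.ofFn fun i => (v i : W.H X)).prod := by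
    intro σ
    rw [map_list_prod, List.map_ofFn]
    congr 2
    funext i
    rw [Function.comp_apply, ← W.map_comp, hd, W.map_id]
  simp only [h1]
  rw [Finset.sum_const, Finset.card_univ, Fintype.card_perm, Fintype.card_fin,
    Nat.cast_smul_eq_nsmul]

lemma sym_tr (hs : S_sgn.{v, 0}) (hP : IsPw W X P pr) (hζ : ζ ∈ W.gr X (2 * (X.dim - 1)))
    (hX : 0 < X.dim) (F : P ⟶ X)
    (hF : ∀ v ∈ W.gr X 1, W.map F v = ∑ i, W.map (pr i) v) (v : Fin n → W.gr X 1)
    (x : Fin n → W.H X) (hx : ∀ i, x i ∈ W.gr X 1) :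
    W.tr P (W.map F (List.ofFn fun i => (v i : W.H X)).prod * prd W pr ζ x) =
      W.tr P (sym W pr v * prd W pr ζ x) := by
  classical
  have h1 : W.map F (List.ofFn fun i => (v i : W.H X)).prod =
      ∑ φ : Fin n → Fin n, (List.ofFn fun k => W.map (pr (φ k)) (v k : W.H X)).prod := by
    rw [map_list_prod, List.map_ofFn]
    have h2 : (W.map F ∘ fun i => (v i : W.H X)) =
        fun k => ∑ i, W.map (pr i) (v k : W.H X) := by
      funext k
      exact hF _ (v k).2
    rw [h2]
    have h3 := MultilinearMap.map_sum (MultilinearMap.mkPiAlgebraFin W.K n (W.H P))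
      (fun (k : Fin n) (i : Fin n) => W.map (pr i) (v k : W.H X))
    exact h3
  rw [h1, Finset.sum_mul, map_sum]
  unfold sym
  rw [Finset.sum_mul, map_sum]
  symm
  refine Fintype.sum_of_injective (fun σ : Equiv.Perm (Fin n) => (σ : Fin n → Fin n))
    DFunLike.coe_injective _ _ ?_ (fun _ => rfl)
  intro φ hφ
  refine tr_phi W pr ζ hs hP hζ hX φ ?_ _ x (fun i => (v i).2) hx
  intro hsur
  have hb : Function.Bijective φ := Finite.surjective_iff_bijective.1 hsur
  exact hφ ⟨Equiv.ofBijective φ hb, rfl⟩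

end AV3

theorem av3 (hs : S_sgn.{v, 0}) : S_av3.{u, v} := by
  intro k _ 𝒱 ops W X P n pr hP hn hX hgen ζ hζ hnd F hF z hz h0
  obtain ⟨d, hd⟩ := hP.exists_map X fun _ => 𝟙 X
  have key : ∀ z ∈ mon W X n, ∃ b ∈ Submodule.span W.K (Set.range (mlt W pr)),
      (∀ x : Fin n → W.H X, (∀ i, x i ∈ W.gr X 1) →
        W.tr P (W.map F z * prd W pr ζ x) = W.tr P (b * prd W pr ζ x)) ∧
      W.map d b = (n.factorial : W.K) • z := by
    intro z hz
    induction hz using Submodule.span_induction with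
    | mem y hy =>
      obtain ⟨v, rfl⟩ := hy
      exact ⟨sym W pr v, sym_mem W pr hs v, fun x hx => sym_tr W pr ζ hs hP hζ hX F hF v x hx,
        sym_diag W pr v d hd⟩
    | zero => exact ⟨0, Submodule.zero_mem _, fun x _ => by simp, by simp⟩
    | add y y' _ _ hy hy' =>
      obtain ⟨b, hb, h1, h2⟩ := hy
      obtain ⟨b', hb', h3, h4⟩ := hy'
      refine ⟨b + b', Submodule.add_mem _ hb hb', fun x hx => ?_, ?_⟩
      · rw [_root_.map_add, add_mul, _root_.map_add, h1 x hx, h3 x hx, add_mul, _root_.map_add]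
      · rw [_root_.map_add, h2, h4, smul_add]
    | smul q y _ hy =>
      obtain ⟨b, hb, h1, h2⟩ := hy
      refine ⟨q • b, Submodule.smul_mem _ _ hb, fun x hx => ?_, ?_⟩
      · rw [map_smul, smul_mul_assoc, map_smul, h1 x hx, smul_mul_assoc, map_smul]
      · rw [map_smul, h2, smul_comm]
  obtain ⟨b, hb, h1, h2⟩ := key z (mem_mon W hgen hz)
  have hb0 : b = 0 := by
    refine mlt_nondeg W pr ζ hs hP hζ hnd hb fun x hx => ?_
    rw [← h1 x hx]
    exact h0 x hx
  rw [hb0, _root_.map_zero] at h2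
  have h3 : (n.factorial : W.K) ≠ 0 := by exact_mod_cast Nat.factorial_ne_zero n
  exact (smul_eq_zero.1 h2.symm).resolve_left h3

end Pool.Agent.Y180.KN
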